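import Pool.Agent.Q142.Two.Met

set_option autoImplicit false

open scoped ContDiff Manifold Topology RealInnerProductSpace Quaternion
open Module Metric Pool.Agent.Q142.Coh

namespace Pool.Agent.Q142.Two

/-- the group of complex numbers of modulus one -/
abbrev GC := sphere (0 : ℂ) 1

instance factC : Fact (finrank ℝ ℂ = 1 + 1) := ⟨Complex.finrank_real_complex⟩

/-- `S¹ × S³` -/
abbrev GG := GC × GQ

/-- the Euclidean space `ℍ ⊕ ℍ` -/
abbrev W := EQ 1

/-- the unit sphere of `ℍ ⊕ ℍ` -/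
abbrev M7 := sphere (0 : W) 1

theorem finrank_W : finrank ℝ W = 7 + 1 := by
  rw [finrank_EQ]

instance factW : Fact (finrank ℝ W = 7 + 1) := ⟨finrank_W⟩

/-- the inclusion `ℂ → ℍ` -/
noncomputable def jC : ℂ →L[ℝ] ℍ := LinearMap.toContinuousLinearMap Quaternion.ofComplex.toLinearMap

theorem jC_apply (z : ℂ) : jC z = (z : ℍ) := rfl

theorem jC_mul (z w : ℂ) : jC (z * w) = jC z * jC w := Quaternion.coeComplex_mul z w

theorem jC_one : jC 1 = 1 := Quaternion.coeComplex_one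

theorem norm_jC (z : ℂ) : ‖jC z‖ = ‖z‖ := by
  rw [← pow_left_inj₀ (norm_nonneg _) (norm_nonneg _) two_ne_zero, sq,
    ← Quaternion.normSq_eq_norm_mul_self, Quaternion.normSq_def', jC_apply, ← Complex.normSq_eq_norm_sq,
    Complex.normSq_apply]
  simp
  ring

theorem jC_inj {z w : ℂ} (h : jC z = jC w) : z = w := by
  have h1 : ‖jC (z - w)‖ = 0 := by rw [map_sub, h, sub_self, norm_zero]
  rw [norm_jC, norm_eq_zero, sub_eq_zero] at h1
  exact h1

/-- `(v, w) ↦ (q v, q w z)` -/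
noncomputable def act2 (z : ℂ) (q : ℍ) (x : W) : W :=
  WithLp.toLp 2 fun i => if i = 0 then q * x 0 else q * x 1 * jC z

theorem act2_zero (z : ℂ) (q : ℍ) (x : W) : act2 z q x 0 = q * x 0 := by
  simp [act2]

theorem act2_one (z : ℂ) (q : ℍ) (x : W) : act2 z q x 1 = q * x 1 * jC z := by
  simp [act2]

theorem ext_W {x y : W} (h0 : x 0 = y 0) (h1 : x 1 = y 1) : x = y := by
  refine PiLp.ext fun i => ?_
  fin_cases i
  · exact h0
  · exact h1

theorem normsq_W (x : W) : ‖x‖ ^ 2 = ‖x 0‖ ^ 2 + ‖x 1‖ ^ 2 := by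
  rw [PiLp.norm_sq_eq_of_L2, Fin.sum_univ_two]

theorem norm_act2 (z : ℂ) (q : ℍ) (hz : ‖z‖ = 1) (hq : ‖q‖ = 1) (x : W) :
    ‖act2 z q x‖ = ‖x‖ := by
  rw [← pow_left_inj₀ (norm_nonneg _) (norm_nonneg _) two_ne_zero, normsq_W, normsq_W, act2_zero,
    act2_one, norm_mul, norm_mul, norm_mul, norm_jC, hz, hq]
  ring

theorem norm_GC (z : GC) : ‖(z : ℂ)‖ = 1 := by simp

/-- the linear isometry of `ℍ ⊕ ℍ` defined by an element of `S¹ × S³` -/
noncomputable def actL (a : GG) : W →ₗᵢ[ℝ] W where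
  toFun x := act2 (a.1 : ℂ) (a.2 : ℍ) x
  map_add' := by
    intro x y
    refine ext_W ?_ ?_
    · simp only [act2_zero, PiLp.add_apply, mul_add]
    · simp only [act2_one, PiLp.add_apply, mul_add, add_mul]
  map_smul' := by
    intro c x
    refine ext_W ?_ ?_
    · simp only [act2_zero, PiLp.smul_apply, Algebra.mul_smul_comm, RingHom.id_apply]
    · simp only [act2_one, PiLp.smul_apply, Algebra.mul_smul_comm, Algebra.smul_mul_assoc,
        RingHom.id_apply]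
  norm_map' := by
    intro x
    exact norm_act2 _ _ (norm_GC _) (norm_GQ _) _

theorem actL_apply (a : GG) (x : W) : actL a x = act2 (a.1 : ℂ) (a.2 : ℍ) x := rfl

noncomputable instance action2 : MulAction GG M7 where
  smul a x := ⟨actL a (x : W), by
    rw [mem_sphere_zero_iff_norm, LinearIsometry.norm_map]; exact norm_eq_of_mem_sphere x⟩
  one_smul := by
    intro x
    refine Subtype.ext ?_
    change act2 1 1 (x : W) = (x : W)
    refine ext_W ?_ ?_
    · rw [act2_zero, one_mul]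
    · rw [act2_one, one_mul, jC_one, mul_one]
  mul_smul := by
    intro a b x
    refine Subtype.ext ?_
    change act2 ((a.1 : ℂ) * (b.1 : ℂ)) ((a.2 : ℍ) * (b.2 : ℍ)) (x : W) =
      act2 (a.1 : ℂ) (a.2 : ℍ) (act2 (b.1 : ℂ) (b.2 : ℍ) (x : W))
    refine ext_W ?_ ?_
    · rw [act2_zero, act2_zero, act2_zero, mul_assoc]
    · rw [act2_one, act2_one, act2_one, mul_comm (a.1 : ℂ), jC_mul]
      simp only [mul_assoc]

theorem smul_coe2 (a : GG) (x : M7) : ((a • x : M7) : W) = act2 (a.1 : ℂ) (a.2 : ℍ) (x : W) :=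
  rfl

/-- coordinates of a point of the sphere -/
def cc (x : M7) (i : Fin 2) : ℍ := (x : W) i

theorem cc_smul_zero (a : GG) (x : M7) : cc (a • x) 0 = (a.2 : ℍ) * cc x 0 := act2_zero _ _ _

theorem cc_smul_one (a : GG) (x : M7) : cc (a • x) 1 = (a.2 : ℍ) * cc x 1 * jC (a.1 : ℂ) :=
  act2_one _ _ _

theorem ext_cc {x y : M7} (h0 : cc x 0 = cc y 0) (h1 : cc x 1 = cc y 1) : x = y :=
  Subtype.ext (ext_W h0 h1)

theorem normsq_cc (x : M7) : ‖cc x 0‖ ^ 2 + ‖cc x 1‖ ^ 2 = 1 := by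
  have h := normsq_W (x : W)
  rw [norm_eq_of_mem_sphere x] at h
  rw [one_pow] at h
  exact h.symm

/-! ### smoothness -/

theorem contDiff_act2 : ContDiff ℝ ∞ (fun p : (ℂ × ℍ) × W => act2 p.1.1 p.1.2 p.2) := by
  rw [contDiff_piLp]
  intro i
  have hz : ContDiff ℝ ∞ (fun p : (ℂ × ℍ) × W => jC p.1.1) :=
    jC.contDiff.comp (contDiff_fst.comp contDiff_fst)
  have hq : ContDiff ℝ ∞ (fun p : (ℂ × ℍ) × W => p.1.2) := contDiff_snd.comp contDiff_fst
  have hc : ∀ i : Fin 2, ContDiff ℝ ∞ (fun p : (ℂ × ℍ) × W => p.2 i) := fun i =>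
    (PiLp.proj 2 (𝕜 := ℝ) (fun _ : Fin 2 => ℍ) i).contDiff.comp contDiff_snd
  fin_cases i
  · change ContDiff ℝ ∞ (fun p : (ℂ × ℍ) × W => act2 p.1.1 p.1.2 p.2 0)
    simp only [act2_zero]
    exact hq.mul (hc 0)
  · change ContDiff ℝ ∞ (fun p : (ℂ × ℍ) × W => act2 p.1.1 p.1.2 p.2 1)
    simp only [act2_one]
    exact (hq.mul (hc 1)).mul hz

instance lieGC : LieGroup (𝓡 1) ∞ GC where
  contMDiff_mul := by
    apply ContMDiff.codRestrict_sphere
    have h1 : ContMDiff ((𝓡 1).prod (𝓡 1)) 𝓘(ℝ, ℂ × ℂ) ∞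
        (fun p : GC × GC => ((p.1 : ℂ), (p.2 : ℂ))) :=
      ContMDiff.prodMk_space (contMDiff_coe_sphere.comp contMDiff_fst)
        (contMDiff_coe_sphere.comp contMDiff_snd)
    have h2 : ContDiff ℝ ∞ (fun p : ℂ × ℂ => p.1 * p.2) := contDiff_fst.mul contDiff_snd
    exact h2.contMDiff.comp h1
  contMDiff_inv := by
    apply ContMDiff.codRestrict_sphere
    have h1 : ∀ a : GC, (a : ℂ)⁻¹ = Complex.conjCLE (a : ℂ) := by
      intro a
      refine inv_eq_of_mul_eq_one_right ?_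
      change (a : ℂ) * (starRingEnd ℂ) (a : ℂ) = 1
      rw [Complex.mul_conj, Complex.normSq_eq_norm_sq, norm_GC]
      simp
    simp only [h1]
    exact (Complex.conjCLE : ℂ →L[ℝ] ℂ).contDiff.contMDiff.comp contMDiff_coe_sphere

/-- the model with corners of `S¹ × S³` -/
noncomputable abbrev I4 := (𝓡 1).prod (𝓡 3)

theorem contMDiff_coe2 :
    ContMDiff (I4.prod (𝓡 7)) 𝓘(ℝ, (ℂ × ℍ) × W) ∞
      (fun p : GG × M7 => (((p.1.1 : ℂ), (p.1.2 : ℍ)), (p.2 : W))) := by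
  refine ContMDiff.prodMk_space (ContMDiff.prodMk_space ?_ ?_) ?_
  · exact contMDiff_coe_sphere.comp (contMDiff_fst.comp contMDiff_fst)
  · exact contMDiff_coe_sphere.comp (contMDiff_snd.comp contMDiff_fst)
  · exact contMDiff_coe_sphere.comp contMDiff_snd

theorem smooth_action2 :
    ContMDiff (I4.prod (𝓡 7)) (𝓡 7) ∞ (fun p : GG × M7 => p.1 • p.2) := by
  have h7 := contDiff_act2.comp_contMDiff contMDiff_coe2
  exact h7.codRestrict_sphere (n := 7) (fun p => (p.1 • p.2 : M7).2)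

end Pool.Agent.Q142.Two
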