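import Pool.Agent.Q142.Coh.Top

set_option autoImplicit false

open scoped ContDiff Manifold Topology RealInnerProductSpace Quaternion
open Module Metric Pool.Agent.Q142.Coh

namespace Pool.Agent.Q142.Two

/-- Riemann curvature tensor of a metric in coordinates, `R(∂_l, ∂_j) ∂_i = ∑_k R^k_{ilj} ∂_k`:
`R^k_{ilj} = ∂_l Γ^k_{ij} - ∂_j Γ^k_{il} + Γ^k_{lm} Γ^m_{ij} - Γ^k_{jm} Γ^m_{il}`. -/
noncomputable def Rm {n : ℕ} (G : (Fin n → ℝ) → Matrix (Fin n) (Fin n) ℝ) (x : Fin n → ℝ)
    (k i l j : Fin n) : ℝ :=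
  pd l (Gam G k i j) x - pd j (Gam G k i l) x +
    ∑ m, (Gam G k l m x * Gam G m i j x - Gam G k j m x * Gam G m i l x)

/-- the inner product `g(v, w)` in coordinates -/
noncomputable def ip {n : ℕ} (G : (Fin n → ℝ) → Matrix (Fin n) (Fin n) ℝ) (x v w : Fin n → ℝ) :
    ℝ := ∑ i, ∑ j, G x i j * v i * w j

/-- `g(R(v, w) w, v)` in coordinates -/
noncomputable def secNum {n : ℕ} (G : (Fin n → ℝ) → Matrix (Fin n) (Fin n) ℝ)
    (x v w : Fin n → ℝ) : ℝ :=
  ∑ p, ∑ k, ∑ i, ∑ l, ∑ j, G x p k * Rm G x k i l j * v l * w j * w i * v p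

/-! ### constant multiples of the round metric -/

theorem Gam_smul {n : ℕ} (c : ℝ) (hc : c ≠ 0) (k i j : Fin n) :
    Gam (fun y => c • rnd (n := n) y) k i j = Gam (rnd (n := n)) k i j := by
  funext x
  unfold Gam
  have h1 : ∀ a b d : Fin n, pd a (fun y => (c • rnd (n := n) y) b d) x =
      c * pd a (fun y => rnd (n := n) y b d) x := by
    intro a b d
    unfold pd
    have h2 : DifferentiableAt ℝ (fun y : Fin n → ℝ => rnd y b d) x :=
      (rnd_smooth b d).differentiable (by simp) x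
    have h3 : (fun y : Fin n → ℝ => (c • rnd (n := n) y) b d) = fun y => c * rnd y b d := by
      funext y; simp
    rw [h3, (h2.hasFDerivAt.const_mul c).fderiv]
    simp
  have h4 : (c • rnd (n := n) x)⁻¹ = c⁻¹ • (rnd x)⁻¹ := by
    apply Matrix.inv_eq_right_inv
    have h0 : S x ≠ 0 := (S_pos x).ne'
    rw [rnd_inv, rnd, Matrix.smul_mul, Matrix.mul_smul, Matrix.smul_mul, Matrix.mul_smul, mul_one,
      smul_smul, smul_smul, smul_smul]
    rw [show c * c⁻¹ * (16 / S x ^ 2) * (S x ^ 2 / 16) = 1 by field_simp]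
    rw [one_smul]
  congr 1
  refine Finset.sum_congr rfl fun l _ => ?_
  rw [h1, h1, h1, h4]
  simp only [Matrix.smul_apply, smul_eq_mul]
  field_simp

theorem Gam_smul' {n : ℕ} (c : ℝ) (hc : c ≠ 0) :
    Gam (fun y => c • rnd (n := n) y) = Gam (rnd (n := n)) := by
  funext k i j
  exact Gam_smul c hc k i j

theorem Rm_smul {n : ℕ} (c : ℝ) (hc : c ≠ 0) (x : Fin n → ℝ) (k i l j : Fin n) :
    Rm (fun y => c • rnd (n := n) y) x k i l j = Rm (rnd (n := n)) x k i l j := by
  unfold Rm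
  rw [Gam_smul' c hc]

theorem sum_prod_Gam {n : ℕ} (x : Fin n → ℝ) (k l i j : Fin n) :
    ∑ m, Gam (rnd (n := n)) k l m x * Gam (rnd (n := n)) m i j x =
      psi l x * (dl j k * psi i x + dl i k * psi j x - dl i j * psi k x) +
      dl l k * (2 * (psi i x * psi j x) - dl i j * ∑ m, psi m x * psi m x) -
      psi k x * (dl j l * psi i x + dl i l * psi j x - dl i j * psi l x) := by
  have h1 : ∀ m, Gam (rnd (n := n)) k l m x * Gam (rnd (n := n)) m i j x =
      dl m k * (psi l x * (dl j m * psi i x + dl i m * psi j x - dl i j * psi m x)) +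
      (dl j m * (dl l k * (psi m x * psi i x)) + dl i m * (dl l k * (psi m x * psi j x)) -
        dl l k * dl i j * (psi m x * psi m x)) -
      dl l m * (psi k x * (dl j m * psi i x + dl i m * psi j x - dl i j * psi m x)) := by
    intro m
    rw [Gam_rnd, Gam_rnd]
    ring
  simp only [h1, Finset.sum_add_distrib, Finset.sum_sub_distrib, sum_dl, sum_dl', ← Finset.mul_sum]
  ring

theorem Rm_rnd {n : ℕ} (x : Fin n → ℝ) (k i l j : Fin n) :
    Rm (rnd (n := n)) x k i l j = 16 / S x ^ 2 * (dl k l * dl i j - dl k j * dl i l) := by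
  have h0 : S x ≠ 0 := (S_pos x).ne'
  unfold Rm
  rw [Finset.sum_sub_distrib, sum_prod_Gam, sum_prod_Gam, pd_Gam, pd_Gam, sum_psi_sq]
  rw [dl_comm l k, dl_comm j k, dl_comm l j]
  field_simp
  ring

theorem ip_smul_rnd {n : ℕ} (c : ℝ) (x v w : Fin n → ℝ) :
    ip (fun y => c • rnd (n := n) y) x v w = c * (16 / S x ^ 2) * ∑ i, v i * w i := by
  unfold ip
  rw [Finset.mul_sum]
  refine Finset.sum_congr rfl fun i _ => ?_
  rw [Finset.sum_eq_single i]
  · simp [rnd]; ring
  · intro j _ hj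
    simp [rnd, Ne.symm hj]
  · simp

theorem secNum_smul_rnd {n : ℕ} (c : ℝ) (hc : c ≠ 0) (x v w : Fin n → ℝ) :
    secNum (fun y => c • rnd (n := n) y) x v w =
      c * (16 / S x ^ 2) ^ 2 * ((∑ i, v i * v i) * (∑ i, w i * w i) - (∑ i, v i * w i) ^ 2) := by
  unfold secNum
  have h1 : ∀ p k i l j : Fin n, (fun y => c • rnd (n := n) y) x p k *
      Rm (fun y => c • rnd (n := n) y) x k i l j * v l * w j * w i * v p =
      c * (16 / S x ^ 2) ^ 2 * (dl p k * (dl k l * (dl i j * (v l * w j * w i * v p)) -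
        dl k j * (dl i l * (v l * w j * w i * v p)))) := by
    intro p k i l j
    rw [Rm_smul c hc, Rm_rnd]
    have : (fun y => c • rnd (n := n) y) x p k = c * (16 / S x ^ 2 * dl p k) := by
      simp [rnd, dl, Matrix.one_apply]
    rw [this]
    ring
  simp only [h1]
  have h2 : ∀ p : Fin n, ∑ k, ∑ i, ∑ l, ∑ j, c * (16 / S x ^ 2) ^ 2 *
      (dl p k * (dl k l * (dl i j * (v l * w j * w i * v p)) -
        dl k j * (dl i l * (v l * w j * w i * v p)))) =
      c * (16 / S x ^ 2) ^ 2 * (v p * v p * (∑ i, w i * w i) - v p * w p * ∑ i, v i * w i) := by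
    intro p
    have e1 : ∀ k i l : Fin n, ∑ j, c * (16 / S x ^ 2) ^ 2 *
      (dl p k * (dl k l * (dl i j * (v l * w j * w i * v p)) -
        dl k j * (dl i l * (v l * w j * w i * v p)))) =
        c * (16 / S x ^ 2) ^ 2 * (dl p k * (dl k l * (v l * w i * w i * v p) -
        dl i l * (v l * w k * w i * v p))) := by
      intro k i l
      rw [← Finset.mul_sum, ← Finset.mul_sum, Finset.sum_sub_distrib, ← Finset.mul_sum, sum_dl',
        sum_dl']
    simp only [e1]
    have e2 : ∀ k i : Fin n, ∑ l, c * (16 / S x ^ 2) ^ 2 *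
      (dl p k * (dl k l * (v l * w i * w i * v p) - dl i l * (v l * w k * w i * v p))) =
        c * (16 / S x ^ 2) ^ 2 * (dl p k * (v k * w i * w i * v p - v i * w k * w i * v p)) := by
      intro k i
      rw [← Finset.mul_sum, ← Finset.mul_sum, Finset.sum_sub_distrib, sum_dl', sum_dl']
    simp only [e2]
    have e3 : ∀ k : Fin n, ∑ i, c * (16 / S x ^ 2) ^ 2 *
      (dl p k * (v k * w i * w i * v p - v i * w k * w i * v p)) =
        c * (16 / S x ^ 2) ^ 2 * (dl p k * (v k * v p * (∑ i, w i * w i) -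
          w k * v p * ∑ i, v i * w i)) := by
      intro k
      rw [← Finset.mul_sum, ← Finset.mul_sum, Finset.sum_sub_distrib, Finset.mul_sum,
        Finset.mul_sum]
      congr 3
      · refine Finset.sum_congr rfl fun i _ => by ring
      · refine Finset.sum_congr rfl fun i _ => by ring
    simp only [e3]
    rw [← Finset.mul_sum, sum_dl']
    ring
  simp only [h2]
  rw [← Finset.mul_sum, Finset.sum_sub_distrib, ← Finset.sum_mul, ← Finset.sum_mul]
  ring

theorem cs_nonneg {n : ℕ} (v w : Fin n → ℝ) :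
    0 ≤ (∑ i, v i * v i) * (∑ i, w i * w i) - (∑ i, v i * w i) ^ 2 := by
  have h := Finset.sum_mul_sq_le_sq_mul_sq Finset.univ v w
  simp only [sq] at h ⊢
  linarith

end Pool.Agent.Q142.Two
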