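import Pool.Agent.Q142.Two.Curv

set_option autoImplicit false

open scoped ContDiff Manifold Topology
open Module Pool.Agent.Q142.Coh

namespace Pool.Agent.Q142.Two

section Metric

variable {n : ℕ} {M : Type*} [TopologicalSpace M] [ChartedSpace (En n) M]

/-- All sectional curvatures of `g` are at least `c`: for all tangent vectors `v`, `w`,
`g(R(v, w) w, v) ≥ c (g(v, v) g(w, w) - g(v, w)²)` (computed in the charts of the atlas). -/
def SecGE (g : RMet n M) (c : ℝ) : Prop :=
  ∀ e ∈ atlas (En n) M, ∀ y : Fin n → ℝ, WithLp.toLp 2 y ∈ e.target → ∀ v w : Fin n → ℝ,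
    c * (ip (coef g.val e) y v v * ip (coef g.val e) y w w - ip (coef g.val e) y v w ^ 2) ≤
      secNum (coef g.val e) y v w

/-- The length of the curve `γ : [0, 1] → M` for the metric `g`. -/
noncomputable def len (g : RMet n M) (γ : ℝ → M) : ℝ :=
  ∫ t in (0:ℝ)..1, Real.sqrt (g.val (γ t) (dif γ t (1 : ℝ)) (dif γ t (1 : ℝ)))

/-- The diameter of `(M, g)` is at most `D`: for every `δ > 0` any two points are joined by a `C¹`
curve of length less than `D + δ`. -/
def DiamLE (g : RMet n M) (D : ℝ) : Prop :=
  ∀ x y : M, ∀ δ : ℝ, 0 < δ → ∃ γ : ℝ → M, ContMDiff 𝓘(ℝ, ℝ) 𝓘(ℝ, En n) 1 γ ∧ γ 0 = x ∧ γ 1 = y ∧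
    len g γ < D + δ

variable (n M) in
/-- `M` admits almost nonnegative sectional curvature: for every `ε > 0` there is a Riemannian
metric on `M` with sectional curvature at least `-ε` and diameter at most `1`. -/
def AlmostNonnegative : Prop :=
  ∀ ε : ℝ, 0 < ε → ∃ g : RMet n M, SecGE g (-ε) ∧ DiamLE g 1

end Metric

section Action

variable {EG HG : Type} [NormedAddCommGroup EG] [NormedSpace ℝ EG] [TopologicalSpace HG]
  (IG : ModelWithCorners ℝ EG HG) (n : ℕ) (G : Type) [Group G] [TopologicalSpace G]
  [ChartedSpace HG G] {M : Type} [TopologicalSpace M] [ChartedSpace (En n) M] [MulAction G M]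

/-- The dimension of the orbit of `x`: the rank of the differential at `1` of the orbit map
`a ↦ a • x`. -/
noncomputable def orbDim (x : M) : ℕ :=
  Set.finrank ℝ (Set.range (fun v : TangentSpace IG (1 : G) =>
    (mfderiv IG 𝓘(ℝ, En n) (fun a : G => a • x) 1 v : En n)))

/-- `x` lies on a singular orbit: its orbit has smaller dimension than a principal orbit. -/
def IsSing (x : M) : Prop :=
  ∃ p : M, IsPrincipal G p ∧ orbDim IG n G x < orbDim IG n G p

variable (M) in
/-- There are exactly two singular orbits, the isotropy group of a point of the first one is not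
conjugate to the isotropy group of a point of the second one. -/
def TwoDifferentSingularOrbits : Prop :=
  ∃ x₁ x₂ : M, (∀ x : M, IsSing IG n G x ↔
      x ∈ MulAction.orbit G x₁ ∨ x ∈ MulAction.orbit G x₂) ∧
    ¬ ∃ a : G, MulAction.stabilizer G x₂ = MulAction.stabilizer G (a • x₁)

variable (M) in
/-- `M` is a `G`-manifold with two different singular orbits, of cohomogeneity `c`: `G` is a compact
connected Lie group (finite-dimensional, without boundary), `M` is a closed connected smooth
manifold of dimension `n`, the action is smooth and effective, there are only finitely many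
non-principal orbits, principal orbits exist and have codimension `c`, and there are exactly two
singular orbits, whose isotropy groups are not conjugate. -/
def TwoDifferentSingular (c : ℕ) : Prop :=
  (CompactSpace G ∧ T2Space G ∧ ConnectedSpace G ∧ LieGroup IG ∞ G ∧ IG.Boundaryless ∧
      FiniteDimensional ℝ EG) ∧
    ClosedManifold (En n) M ∧
    ContMDiff (IG.prod 𝓘(ℝ, En n)) 𝓘(ℝ, En n) ∞ (fun p : G × M => p.1 • p.2) ∧
    FaithfulSMul G M ∧
    FiniteNonPrincipal G M ∧
    (∃ p : M, IsPrincipal G p ∧ orbDim IG n G p + c = n) ∧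
    TwoDifferentSingularOrbits IG n G M

end Action

end Pool.Agent.Q142.Two
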