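import Pool.Agent.Q142.Two.Defs

set_option autoImplicit false

open scoped ContDiff Manifold Topology RealInnerProductSpace
open Module Metric Pool.Agent.Q142.Coh

namespace Pool.Agent.Q142.Two

section SphereMetric

variable {V : Type*} [NormedAddCommGroup V] [InnerProductSpace ℝ V] {n : ℕ}
  [Fact (finrank ℝ V = n + 1)]

theorem coef_smul (c : ℝ)
    (e : OpenPartialHomeomorph (sphere (0 : V) 1) (EuclideanSpace ℝ (Fin n)))
    (he : e ∈ atlas (EuclideanSpace ℝ (Fin n)) (sphere (0 : V) 1)) :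
    coef (fun x v w => c * roundForm (V := V) (n := n) x v w) e = fun y => c • rnd y := by
  have h := coef_round e he
  funext y
  ext i j
  have h1 := congrFun (congrFun (congrFun h y) i) j
  have h2 : roundForm (V := V) (e.symm (WithLp.toLp 2 y)) (cv e y i) (cv e y j) = rnd y i j := h1
  change c * roundForm (V := V) (e.symm (WithLp.toLp 2 y)) (cv e y i) (cv e y j) = c * rnd y i j
  rw [h2]

variable (V n) in
/-- `c` times the round metric on the unit sphere of `V` -/
noncomputable def smet (c : ℝ) (hc : 0 < c) : RMet n (sphere (0 : V) 1) where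
  val := fun x v w => c * roundForm x v w
  add_left := fun x u v w => by
    rw [(roundMet V n).add_left x u v w |> (show roundForm x (u + v) w = _ from ·), mul_add]
    rfl
  smul_left := fun x a v w => by
    rw [(roundMet V n).smul_left x a v w |> (show roundForm x (a • v) w = _ from ·)]
    change c * (a * roundForm x v w) = a * (c * roundForm x v w)
    ring
  symm := fun x v w => by
    rw [(roundMet V n).symm x v w |> (show roundForm x v w = _ from ·)]
    rfl
  pos := fun x v hv => mul_pos hc ((roundMet V n).pos x v hv)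
  smooth := fun e he i j => by
    rw [coef_smul c e he]
    have h : ContDiff ℝ ∞ (fun y : Fin n → ℝ => (c • rnd (n := n) y) i j) := by
      have h2 := (rnd_smooth (n := n) i j).const_smul c
      exact h2
    exact h.contDiffOn

theorem secGE_smet (c : ℝ) (hc : 0 < c) (k : ℝ) (hk : k * c ≤ 1) : SecGE (smet V n c hc) k := by
  intro e he y _ v w
  have h1 : coef (smet V n c hc).val e = fun y => c • rnd y := coef_smul c e he
  rw [h1, ip_smul_rnd, ip_smul_rnd, ip_smul_rnd, secNum_smul_rnd c hc.ne']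
  have h2 := cs_nonneg v w
  set A := (∑ i, v i * v i) * (∑ i, w i * w i) - (∑ i, v i * w i) ^ 2 with hA
  have h3 : k * (c * (16 / S y ^ 2) * (∑ i, v i * v i) * (c * (16 / S y ^ 2) * ∑ i, w i * w i) -
      (c * (16 / S y ^ 2) * ∑ i, v i * w i) ^ 2) = (k * c) * (c * (16 / S y ^ 2) ^ 2 * A) := by
    rw [hA]; ring
  rw [h3]
  have h4 : 0 ≤ c * (16 / S y ^ 2) ^ 2 * A := by positivity
  nlinarith

/-! ### great circles -/

/-- the great circle `t ↦ cos (θ t) x + sin (θ t) u` -/
noncomputable def gc (x u : V) (hx : ‖x‖ = 1) (hu : ‖u‖ = 1) (h : ⟪x, u⟫ = 0) (θ t : ℝ) :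
    sphere (0 : V) 1 :=
  ⟨Real.cos (θ * t) • x + Real.sin (θ * t) • u, by
    rw [mem_sphere_zero_iff_norm]; exact norm_comb x u hx hu h (θ * t)⟩

theorem gc_smooth (x u : V) (hx : ‖x‖ = 1) (hu : ‖u‖ = 1) (h : ⟪x, u⟫ = 0) (θ : ℝ) :
    ContMDiff 𝓘(ℝ, ℝ) (𝓡 n) 1 (gc x u hx hu h θ) := by
  have h1 : ContDiff ℝ 1 (fun t : ℝ => Real.cos (θ * t) • x + Real.sin (θ * t) • u) := by
    have h2 : ContDiff ℝ 1 (fun t : ℝ => θ * t) := contDiff_const.mul contDiff_id
    exact ((Real.contDiff_cos.comp h2).smul contDiff_const).add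
      ((Real.contDiff_sin.comp h2).smul contDiff_const)
  exact h1.contMDiff.codRestrict_sphere (n := n) (fun t => (gc x u hx hu h θ t).2)

theorem gc_deriv (x u : V) (hx : ‖x‖ = 1) (hu : ‖u‖ = 1) (h : ⟪x, u⟫ = 0) (θ t : ℝ) :
    roundForm (V := V) (n := n) (gc x u hx hu h θ t) (dif (gc x u hx hu h θ) t (1 : ℝ))
      (dif (gc x u hx hu h θ) t (1 : ℝ)) = θ ^ 2 := by
  have h1 := (hasMFDerivAt_inc (n := n) (gc x u hx hu h θ t)).comp t
    ((gc_smooth x u hx hu h θ t).mdifferentiableAt one_ne_zero).hasMFDerivAt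
  have h2 : HasDerivAt (fun t : ℝ => Real.cos (θ * t) • x + Real.sin (θ * t) • u)
      ((-Real.sin (θ * t) * θ) • x + (Real.cos (θ * t) * θ) • u) t := by
    have h3 : HasDerivAt (fun t : ℝ => θ * t) θ t := by
      simpa using (hasDerivAt_id t).const_mul θ
    exact ((h3.cos).smul_const x).add ((h3.sin).smul_const u)
  have h4 : (((↑) : sphere (0 : V) 1 → V) ∘ gc x u hx hu h θ) =
      fun t : ℝ => Real.cos (θ * t) • x + Real.sin (θ * t) • u := rfl
  rw [h4] at h1
  have h5 := hasMFDerivAt_unique h1 h2.hasFDerivAt.hasMFDerivAt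
  have h6 : dinc (n := n) (gc x u hx hu h θ t)
      (dif (E := ℝ) (F := En n) (gc x u hx hu h θ) t (1 : ℝ)) =
      (-Real.sin (θ * t) * θ) • x + (Real.cos (θ * t) * θ) • u := by
    refine (congrArg (fun L : TangentSpace 𝓘(ℝ, ℝ) t →L[ℝ] V => L (1 : ℝ)) h5).trans ?_
    change (ContinuousLinearMap.toSpanSingleton ℝ
      ((-Real.sin (θ * t) * θ) • x + (Real.cos (θ * t) * θ) • u)) (1 : ℝ) = _
    simp
  rw [roundForm_apply, h6]
  have hxx : ⟪x, x⟫ = 1 := by rw [real_inner_self_eq_norm_sq, hx]; norm_num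
  have huu : ⟪u, u⟫ = 1 := by rw [real_inner_self_eq_norm_sq, hu]; norm_num
  have hux : ⟪u, x⟫ = 0 := by rw [real_inner_comm]; exact h
  simp only [inner_add_left, inner_add_right, real_inner_smul_left, real_inner_smul_right, hxx,
    huu, h, hux]
  have := Real.sin_sq_add_cos_sq (θ * t)
  linear_combination θ ^ 2 * this

theorem exists_gc (hn : 1 ≤ n) (x y : sphere (0 : V) 1) :
    ∃ (u : V) (hu : ‖u‖ = 1) (h : ⟪(x : V), u⟫ = 0) (θ : ℝ), 0 ≤ θ ∧ θ ≤ Real.pi ∧
      gc (x : V) u (norm_eq_of_mem_sphere x) hu h θ 1 = y := by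
  have hx := norm_eq_of_mem_sphere x
  have hy := norm_eq_of_mem_sphere y
  set a : ℝ := ⟪(x : V), (y : V)⟫ with ha
  have ha1 : |a| ≤ 1 := by
    have := abs_real_inner_le_norm (x : V) (y : V)
    rw [hx, hy, one_mul] at this
    exact this
  have hxx : ⟪(x : V), (x : V)⟫ = 1 := by rw [real_inner_self_eq_norm_sq, hx]; norm_num
  have hyy : ⟪(y : V), (y : V)⟫ = 1 := by rw [real_inner_self_eq_norm_sq, hy]; norm_num
  set z : V := (y : V) - a • (x : V) with hz
  have hxz : ⟪(x : V), z⟫ = 0 := by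
    rw [hz, inner_sub_right, real_inner_smul_right, hxx, ← ha]; ring
  have hyx : ⟪(y : V), (x : V)⟫ = a := by rw [real_inner_comm]
  have hzz : ‖z‖ ^ 2 = 1 - a ^ 2 := by
    rw [← real_inner_self_eq_norm_sq, hz, inner_sub_left, inner_sub_right, inner_sub_right,
      real_inner_smul_left, real_inner_smul_left, real_inner_smul_right, real_inner_smul_right,
      hxx, hyy, hyx, ← ha]
    ring
  have hsin : Real.sin (Real.arccos a) = ‖z‖ := by
    rw [Real.sin_arccos, ← hzz, Real.sqrt_sq (norm_nonneg _)]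
  have hcos : Real.cos (Real.arccos a) = a := Real.cos_arccos (abs_le.1 ha1).1 (abs_le.1 ha1).2
  by_cases h0 : z = 0
  · obtain ⟨u, hu, hxu⟩ : ∃ u : V, ‖u‖ = 1 ∧ ⟪(x : V), u⟫ = 0 := by
      have hf : finrank ℝ V = n + 1 := Fact.out
      have hfd : FiniteDimensional ℝ V := .of_fact_finrank_eq_succ n
      have h1 : finrank ℝ (ℝ ∙ (x : V))ᗮ = n :=
        Submodule.finrank_orthogonal_span_singleton (ne_zero_of_mem_unit_sphere x)
      have h2 : 0 < finrank ℝ (ℝ ∙ (x : V))ᗮ := by omega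
      obtain ⟨w, hw⟩ := Module.finrank_pos_iff_exists_ne_zero.1 h2
      have hw' : (w : V) ≠ 0 := fun h => hw (Subtype.ext h)
      refine ⟨(‖(w : V)‖⁻¹ : ℝ) • (w : V), ?_, ?_⟩
      · rw [norm_smul, norm_inv, norm_norm, inv_mul_cancel₀ (norm_ne_zero_iff.2 hw')]
      · rw [real_inner_smul_right, Submodule.mem_orthogonal_singleton_iff_inner_right.1 w.2,
          mul_zero]
    refine ⟨u, hu, hxu, Real.arccos a, Real.arccos_nonneg a, Real.arccos_le_pi a, ?_⟩
    refine Subtype.ext ?_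
    change Real.cos (Real.arccos a * 1) • (x : V) + Real.sin (Real.arccos a * 1) • u = y
    rw [mul_one, hcos, hsin, h0, norm_zero, zero_smul, add_zero]
    exact (sub_eq_zero.1 h0).symm
  · have hz0 : ‖z‖ ≠ 0 := norm_ne_zero_iff.2 h0
    refine ⟨(‖z‖⁻¹ : ℝ) • z, ?_, ?_, Real.arccos a, Real.arccos_nonneg a,
      Real.arccos_le_pi a, ?_⟩
    · rw [norm_smul, norm_inv, norm_norm, inv_mul_cancel₀ hz0]
    · rw [real_inner_smul_right, hxz, mul_zero]
    · refine Subtype.ext ?_
      change Real.cos (Real.arccos a * 1) • (x : V) +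
        Real.sin (Real.arccos a * 1) • ((‖z‖⁻¹ : ℝ) • z) = y
      rw [mul_one, hcos, hsin, smul_smul, mul_inv_cancel₀ hz0, one_smul, hz]
      abel

theorem diam_smet (hn : 1 ≤ n) (c : ℝ) (hc : 0 < c) (D : ℝ) (hD : Real.sqrt c * Real.pi ≤ D) :
    DiamLE (smet V n c hc) D := by
  intro x y δ hδ
  obtain ⟨u, hu, h, θ, h0, h1, h2⟩ := exists_gc hn x y
  refine ⟨gc (x : V) u (norm_eq_of_mem_sphere x) hu h θ, gc_smooth _ _ _ _ _ _, ?_, h2, ?_⟩
  · refine Subtype.ext ?_
    change Real.cos (θ * 0) • (x : V) + Real.sin (θ * 0) • u = x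
    simp
  · unfold len
    have h3 : ∀ t : ℝ, Real.sqrt ((smet V n c hc).val
        (gc (x : V) u (norm_eq_of_mem_sphere x) hu h θ t)
        (dif (gc (x : V) u (norm_eq_of_mem_sphere x) hu h θ) t (1 : ℝ))
        (dif (gc (x : V) u (norm_eq_of_mem_sphere x) hu h θ) t (1 : ℝ))) =
        Real.sqrt c * θ := by
      intro t
      change Real.sqrt (c * roundForm _ _ _) = _
      rw [gc_deriv, Real.sqrt_mul hc.le, Real.sqrt_sq h0]
    simp only [h3]
    rw [intervalIntegral.integral_const]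
    have h4 : Real.sqrt c * θ ≤ Real.sqrt c * Real.pi :=
      mul_le_mul_of_nonneg_left h1 (Real.sqrt_nonneg c)
    simp only [sub_zero, one_smul]
    linarith

end SphereMetric

end Pool.Agent.Q142.Two
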