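import Pool.Agent.Q142.Two.Act

set_option autoImplicit false

open scoped ContDiff Manifold Topology RealInnerProductSpace Quaternion
open Module Metric Pool.Agent.Q142.Coh

namespace Pool.Agent.Q142.Two

/-- the coordinate functionals on `ℍ ⊕ ℍ` -/
noncomputable def cw (i : Fin 2) : W →L[ℝ] ℍ := PiLp.proj 2 (𝕜 := ℝ) (fun _ : Fin 2 => ℍ) i

theorem cw_apply (i : Fin 2) (x : W) : cw i x = x i := rfl

/-- the orbit map -/
noncomputable def om2 (x : M7) (a : GG) : M7 := a • x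

theorem mdiff_om2 (x : M7) (a : GG) : MDifferentiableAt I4 (𝓡 7) (om2 x) a := by
  have h1 : ContMDiff I4 (I4.prod (𝓡 7)) ∞ (fun a : GG => (a, x)) :=
    contMDiff_id.prodMk contMDiff_const
  have h2 := smooth_action2.comp h1
  have h3 : ContMDiff I4 (𝓡 7) ∞ (om2 x) := h2
  exact (h3 a).mdifferentiableAt (by simp)

theorem mdiff_smul2 (a : GG) (x : M7) :
    MDifferentiableAt (𝓡 7) (𝓡 7) (fun z : M7 => a • z) x := by
  have h1 : ContMDiff (𝓡 7) (I4.prod (𝓡 7)) ∞ (fun z : M7 => (a, z)) :=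
    contMDiff_const.prodMk contMDiff_id
  have h2 := smooth_action2.comp h1
  have h3 : ContMDiff (𝓡 7) (𝓡 7) ∞ (fun z : M7 => a • z) := h2
  exact (h3 x).mdifferentiableAt (by simp)

/-- the differential of `a ↦ a.2` -/
noncomputable def dq : TangentSpace I4 (1 : GG) →L[ℝ] ℍ :=
  (dinc (n := 3) (1 : GQ)).comp
    (ContinuousLinearMap.snd ℝ (TangentSpace (𝓡 1) (1 : GC)) (TangentSpace (𝓡 3) (1 : GQ)))

/-- the differential of `a ↦ jC a.1` -/
noncomputable def dz : TangentSpace I4 (1 : GG) →L[ℝ] ℍ :=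
  jC.comp ((dinc (n := 1) (1 : GC)).comp
    (ContinuousLinearMap.fst ℝ (TangentSpace (𝓡 1) (1 : GC)) (TangentSpace (𝓡 3) (1 : GQ))))

/-- a pair of tangent vectors -/
def pr (s : TangentSpace (𝓡 1) (1 : GC)) (t : TangentSpace (𝓡 3) (1 : GQ)) :
    TangentSpace I4 (1 : GG) := (s, t)

theorem exists_pr (v : TangentSpace I4 (1 : GG)) : ∃ s t, v = pr s t := ⟨v.1, v.2, rfl⟩

theorem dq_pr (s : TangentSpace (𝓡 1) (1 : GC)) (t : TangentSpace (𝓡 3) (1 : GQ)) :
    dq (pr s t) = dinc (n := 3) (1 : GQ) t := rfl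

theorem dz_pr (s : TangentSpace (𝓡 1) (1 : GC)) (t : TangentSpace (𝓡 3) (1 : GQ)) :
    dz (pr s t) = jC (dinc (n := 1) (1 : GC) s) := rfl

theorem pr_zero : pr 0 0 = 0 := rfl

theorem pr_fst (s : TangentSpace (𝓡 1) (1 : GC)) (t : TangentSpace (𝓡 3) (1 : GQ))
    (h : pr s t = 0) : s = 0 := congrArg Prod.fst h

theorem hasMF_q : HasMFDerivAt I4 𝓘(ℝ, ℍ) (fun a : GG => (a.2 : ℍ)) 1 dq :=
  (hasMFDerivAt_inc (n := 3) (1 : GQ)).comp (1 : GG) (hasMFDerivAt_snd (1 : GG))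

theorem hasMF_z : HasMFDerivAt I4 𝓘(ℝ, ℍ) (fun a : GG => jC (a.1 : ℂ)) 1 dz :=
  (jC.hasMFDerivAt (x := ((1 : GC) : ℂ))).comp (1 : GG)
    ((hasMFDerivAt_inc (n := 1) (1 : GC)).comp (1 : GG) (hasMFDerivAt_fst (1 : GG)))

theorem hasMF_mulr (u : ℍ) : HasMFDerivAt I4 𝓘(ℝ, ℍ) (fun a : GG => (a.2 : ℍ) * u) 1
    (((ContinuousLinearMap.mul ℝ ℍ).flip u).comp dq) := by
  have h := (((ContinuousLinearMap.mul ℝ ℍ).flip u).hasMFDerivAt (x := ((1 : GQ) : ℍ))).comp
    (1 : GG) hasMF_q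
  exact h

theorem key0 (x : M7) (v : TangentSpace I4 (1 : GG)) :
    cw 0 (dinc (om2 x 1) (mfderiv I4 (𝓡 7) (om2 x) 1 v)) = dq v * cc x 0 := by
  have e1 := (hasMFDerivAt_inc (n := 7) (om2 x 1)).comp (1 : GG) (mdiff_om2 x 1).hasMFDerivAt
  have e2 := ((cw 0).hasMFDerivAt (x := ((om2 x 1 : M7) : W))).comp (1 : GG) e1
  have e5 : (⇑(cw 0) ∘ ((↑) : M7 → W) ∘ om2 x) = fun a : GG => (a.2 : ℍ) * cc x 0 := by
    funext a; exact cc_smul_zero a x
  rw [e5] at e2
  have e6 := hasMFDerivAt_unique e2 (hasMF_mulr (cc x 0))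
  exact congrArg (fun L : TangentSpace I4 (1 : GG) →L[ℝ] ℍ => L v) e6

theorem key1 (x : M7) (v : TangentSpace I4 (1 : GG)) :
    cw 1 (dinc (om2 x 1) (mfderiv I4 (𝓡 7) (om2 x) 1 v)) = dq v * cc x 1 + cc x 1 * dz v := by
  have e1 := (hasMFDerivAt_inc (n := 7) (om2 x 1)).comp (1 : GG) (mdiff_om2 x 1).hasMFDerivAt
  have e2 := ((cw 1).hasMFDerivAt (x := ((om2 x 1 : M7) : W))).comp (1 : GG) e1
  have e5 : (⇑(cw 1) ∘ ((↑) : M7 → W) ∘ om2 x) =
      (fun a : GG => (a.2 : ℍ) * cc x 1) * fun a : GG => jC (a.1 : ℂ) := by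
    funext a; exact cc_smul_one a x
  rw [e5] at e2
  have e6 := hasMFDerivAt_unique e2 ((hasMF_mulr (cc x 1)).mul' hasMF_z)
  refine (congrArg (fun L : TangentSpace I4 (1 : GG) →L[ℝ] ℍ => L v) e6).trans ?_
  have h1 : (((1 : GG).2 : GQ) : ℍ) = 1 := rfl
  have h2 : (((1 : GG).1 : GC) : ℂ) = 1 := rfl
  change ((((1 : GG).2 : GQ) : ℍ) * cc x 1) * dz v + (dq v * cc x 1) * jC (((1 : GG).1 : GC) : ℂ) = _
  rw [h1, h2, jC_one, one_mul, mul_one, add_comm]

theorem D_eq_zero_iff (x : M7) (v : TangentSpace I4 (1 : GG)) :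
    mfderiv I4 (𝓡 7) (om2 x) 1 v = 0 ↔
      dq v * cc x 0 = 0 ∧ dq v * cc x 1 + cc x 1 * dz v = 0 := by
  constructor
  · intro h
    refine ⟨?_, ?_⟩
    · rw [← key0, h, map_zero, map_zero]
    · rw [← key1, h, map_zero, map_zero]
  · rintro ⟨h0, h1⟩
    apply dinc_inj (om2 x 1)
    rw [map_zero]
    refine ext_W ?_ ?_
    · have := key0 x v
      rw [h0] at this
      exact this
    · have := key1 x v
      rw [h1] at this
      exact this

theorem finrank_T : finrank ℝ (TangentSpace I4 (1 : GG)) = 4 := by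
  change finrank ℝ (EuclideanSpace ℝ (Fin 1) × EuclideanSpace ℝ (Fin 3)) = 4
  rw [Module.finrank_prod]
  simp

theorem orbDim_eq (x : M7) : orbDim I4 7 GG x =
    finrank ℝ (LinearMap.range (mfderiv I4 (𝓡 7) (om2 x) 1).toLinearMap) := by
  unfold orbDim Set.finrank
  have h : Submodule.span ℝ (Set.range (fun v : TangentSpace I4 (1 : GG) =>
      (mfderiv I4 𝓘(ℝ, En 7) (fun a : GG => a • x) 1 v : En 7))) =
      LinearMap.range (mfderiv I4 (𝓡 7) (om2 x) 1).toLinearMap :=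
    Submodule.span_eq (LinearMap.range (mfderiv I4 (𝓡 7) (om2 x) 1).toLinearMap)
  rw [h]
  rfl

/-- the points outside the singular orbits -/
def Reg2 (x : M7) : Prop := cc x 0 ≠ 0 ∧ cc x 1 ≠ 0

theorem orbDim_reg (x : M7) (hx : Reg2 x) : orbDim I4 7 GG x = 4 := by
  rw [orbDim_eq]
  have hinj : Function.Injective (mfderiv I4 (𝓡 7) (om2 x) 1) := by
    rw [injective_iff_map_eq_zero]
    intro v hv
    obtain ⟨h0, h1⟩ := (D_eq_zero_iff x v).1 hv
    obtain ⟨s, t, rfl⟩ := exists_pr v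
    have h2 : dq (pr s t) = 0 := by
      rcases mul_eq_zero.1 h0 with h | h
      · exact h
      · exact absurd h hx.1
    rw [h2, zero_mul, zero_add] at h1
    have h3 : dz (pr s t) = 0 := by
      rcases mul_eq_zero.1 h1 with h | h
      · exact absurd h hx.2
      · exact h
    rw [dq_pr] at h2
    rw [dz_pr] at h3
    have h4 : t = 0 := by
      apply dinc_inj (n := 3) (1 : GQ)
      rw [map_zero]
      exact h2
    have h5 : s = 0 := by
      apply dinc_inj (n := 1) (1 : GC)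
      rw [map_zero]
      apply jC_inj
      rw [map_zero]
      exact h3
    rw [h4, h5, pr_zero]
  exact (LinearMap.finrank_range_of_inj
    (f := (mfderiv I4 (𝓡 7) (om2 x) 1).toLinearMap) hinj).trans finrank_T

theorem orbDim_lt (x : M7) (v : TangentSpace I4 (1 : GG)) (hv : v ≠ 0)
    (h : mfderiv I4 (𝓡 7) (om2 x) 1 v = 0) : orbDim I4 7 GG x < 4 := by
  rw [orbDim_eq]
  have hfd : FiniteDimensional ℝ (TangentSpace I4 (1 : GG)) :=
    inferInstanceAs (FiniteDimensional ℝ (EuclideanSpace ℝ (Fin 1) × EuclideanSpace ℝ (Fin 3)))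
  have h7 := LinearMap.finrank_range_add_finrank_ker (mfderiv I4 (𝓡 7) (om2 x) 1).toLinearMap
  rw [finrank_T] at h7
  have h8 : 0 < finrank ℝ (LinearMap.ker (mfderiv I4 (𝓡 7) (om2 x) 1).toLinearMap) := by
    rw [Module.finrank_pos_iff_exists_ne_zero]
    exact ⟨⟨v, h⟩, fun h9 => hv (congrArg Subtype.val h9)⟩
  change finrank ℝ (LinearMap.range (mfderiv I4 (𝓡 7) (om2 x) 1).toLinearMap) < 4
  omega

theorem exists_dz : ∃ s : TangentSpace (𝓡 1) (1 : GC), dinc (n := 1) (1 : GC) s = Complex.I := by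
  have h1 := range_mvfderiv_subtypeVal (n := 1) (1 : GC)
  have h2 : Complex.I ∈ (ℝ ∙ ((1 : GC) : ℂ))ᗮ := by
    rw [Submodule.mem_orthogonal_singleton_iff_inner_right]
    have : ((1 : GC) : ℂ) = 1 := rfl
    rw [this, Complex.inner]
    simp
  rw [← h1] at h2
  exact h2

theorem exists_dq (u : ℍ) (hu : u.re = 0) :
    ∃ t : TangentSpace (𝓡 3) (1 : GQ), dinc (n := 3) (1 : GQ) t = u := by
  have h1 := range_mvfderiv_subtypeVal (n := 3) (1 : GQ)
  have h2 : u ∈ (ℝ ∙ ((1 : GQ) : ℍ))ᗮ := by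
    rw [Submodule.mem_orthogonal_singleton_iff_inner_right]
    have : ((1 : GQ) : ℍ) = 1 := rfl
    rw [this, Quaternion.inner_def, one_mul, Quaternion.re_star, hu]
  rw [← h1] at h2
  exact h2

theorem orbDim_sing1 (x : M7) (hx : cc x 1 = 0) : orbDim I4 7 GG x < 4 := by
  obtain ⟨s, hs⟩ := exists_dz
  have hv : pr s 0 ≠ 0 := by
    intro h
    have h1 : s = 0 := pr_fst s 0 h
    rw [h1, map_zero] at hs
    exact Complex.I_ne_zero hs.symm
  refine orbDim_lt x _ hv ?_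
  rw [D_eq_zero_iff, hx]
  have h3 : dq (pr s 0) = 0 := map_zero (dinc (n := 3) (1 : GQ))
  rw [h3]
  simp

theorem re_conj_zero (u w : ℍ) (hw : w.re = 0) : (u * w * star u).re = 0 := re_conj u w hw

theorem orbDim_sing0 (x : M7) (hx : cc x 0 = 0) : orbDim I4 7 GG x < 4 := by
  obtain ⟨s, hs⟩ := exists_dz
  obtain ⟨t, ht⟩ := exists_dq (-(cc x 1 * jC Complex.I * star (cc x 1))) (by
    rw [Quaternion.re_neg, re_conj_zero _ _ (by rw [jC_apply]; simp), neg_zero])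
  have hn : star (cc x 1) * cc x 1 = 1 := by
    have h := normsq_cc x
    rw [hx, norm_zero] at h
    rw [Quaternion.star_mul_self, Quaternion.normSq_eq_norm_mul_self, ← sq]
    have : ‖cc x 1‖ ^ 2 = 1 := by linarith
    rw [this]; simp
  have hv : pr s t ≠ 0 := by
    intro h
    have h1 : s = 0 := pr_fst s t h
    rw [h1, map_zero] at hs
    exact Complex.I_ne_zero hs.symm
  refine orbDim_lt x _ hv ?_
  rw [D_eq_zero_iff, hx]
  have h3 : dq (pr s t) = -(cc x 1 * jC Complex.I * star (cc x 1)) := ht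
  have h4 : dz (pr s t) = jC Complex.I := congrArg jC hs
  rw [h3, h4, mul_zero]
  refine ⟨rfl, ?_⟩
  rw [neg_mul, mul_assoc, hn, mul_one]
  simp

end Pool.Agent.Q142.Two
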