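import Pool.Agent.Q142.Two.Orb

set_option autoImplicit false

open scoped ContDiff Manifold Topology RealInnerProductSpace Quaternion
open Module Metric Pool.Agent.Q142.Coh

namespace Pool.Agent.Q142.Two

theorem coe_ne_zero (q : GQ) : (q : ℍ) ≠ 0 := ne_zero_of_mem_unit_sphere q

theorem coeC_ne_zero (z : GC) : jC (z : ℂ) ≠ 0 := by
  intro h
  have h1 := norm_jC (z : ℂ)
  rw [h, norm_zero, norm_GC] at h1
  exact zero_ne_one h1

theorem z0_smul (a : GG) (x : M7) : cc (a • x) 0 = 0 ↔ cc x 0 = 0 := by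
  rw [cc_smul_zero, mul_eq_zero]
  exact ⟨fun h => h.resolve_left (coe_ne_zero a.2), fun h => Or.inr h⟩

theorem z1_smul (a : GG) (x : M7) : cc (a • x) 1 = 0 ↔ cc x 1 = 0 := by
  rw [cc_smul_one, mul_eq_zero, mul_eq_zero]
  exact ⟨fun h => (h.resolve_right (coeC_ne_zero a.1)).resolve_left (coe_ne_zero a.2),
    fun h => Or.inl (Or.inr h)⟩

theorem reg2_smul (a : GG) (x : M7) : Reg2 (a • x) ↔ Reg2 x := by
  unfold Reg2
  rw [Ne, Ne, Ne, Ne, z0_smul a x, z1_smul a x]

theorem mem_stab (a : GG) (x : M7) : a ∈ MulAction.stabilizer GG x ↔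
    (a.2 : ℍ) * cc x 0 = cc x 0 ∧ (a.2 : ℍ) * cc x 1 * jC (a.1 : ℂ) = cc x 1 := by
  rw [MulAction.mem_stabilizer_iff]
  constructor
  · intro h
    refine ⟨?_, ?_⟩
    · rw [← cc_smul_zero, h]
    · rw [← cc_smul_one, h]
  · rintro ⟨h0, h1⟩
    refine ext_cc ?_ ?_
    · rw [cc_smul_zero, h0]
    · rw [cc_smul_one, h1]

theorem snd_eq_one (a : GG) (u : ℍ) (hu : u ≠ 0) (h : (a.2 : ℍ) * u = u) : a.2 = 1 := by
  have h2 : ((a.2 : ℍ) - 1) * u = 0 := by rw [sub_mul, h, one_mul, sub_self]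
  rcases mul_eq_zero.1 h2 with h3 | h3
  · exact Subtype.ext (sub_eq_zero.1 h3)
  · exact absurd h3 hu

theorem stab_reg2 (x : M7) (hx : Reg2 x) : MulAction.stabilizer GG x = ⊥ := by
  rw [eq_bot_iff]
  intro a ha
  rw [mem_stab] at ha
  obtain ⟨h0, h1⟩ := ha
  have h2 := snd_eq_one a _ hx.1 h0
  have h3 : ((1 : GQ) : ℍ) = 1 := rfl
  rw [h2, h3, one_mul] at h1
  have h4 : cc x 1 * (jC (a.1 : ℂ) - 1) = 0 := by rw [mul_sub, h1, mul_one, sub_self]
  have h5 : jC (a.1 : ℂ) = jC 1 := by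
    rcases mul_eq_zero.1 h4 with h | h
    · exact absurd h hx.2
    · rw [jC_one]; exact sub_eq_zero.1 h
  rw [Subgroup.mem_bot]
  exact Prod.ext (Subtype.ext (jC_inj h5)) h2

/-- the complex number `i` -/
def zI : GC := ⟨Complex.I, by rw [mem_sphere_zero_iff_norm]; exact Complex.norm_I⟩

theorem jI_ne : jC Complex.I ≠ 1 := by
  rw [← jC_one]
  intro h
  have := jC_inj h
  have h2 := congrArg Complex.im this
  simp at h2

theorem zI_mem (x : M7) (hx : cc x 1 = 0) : ((zI, 1) : GG) ∈ MulAction.stabilizer GG x := by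
  rw [mem_stab, hx]
  have h3 : ((1 : GQ) : ℍ) = 1 := rfl
  refine ⟨?_, ?_⟩
  · change ((1 : GQ) : ℍ) * cc x 0 = cc x 0
    rw [h3, one_mul]
  · rw [mul_zero, zero_mul]

theorem norm_c1 (x : M7) (hx : cc x 0 = 0) : ‖cc x 1‖ = 1 := by
  have h := normsq_cc x
  rw [hx, norm_zero] at h
  have h1 : ‖cc x 1‖ ^ 2 = 1 := by linarith
  exact (pow_eq_one_iff_of_nonneg (norm_nonneg _) two_ne_zero).1 h1

theorem norm_c0 (x : M7) (hx : cc x 1 = 0) : ‖cc x 0‖ = 1 := by
  have h := normsq_cc x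
  rw [hx, norm_zero] at h
  have h1 : ‖cc x 0‖ ^ 2 = 1 := by linarith
  exact (pow_eq_one_iff_of_nonneg (norm_nonneg _) two_ne_zero).1 h1

theorem self_mul_star1 (u : ℍ) (h : ‖u‖ = 1) : u * star u = 1 := by
  rw [Quaternion.self_mul_star, Quaternion.normSq_eq_norm_mul_self, h]
  simp

theorem star_mul_self1 (u : ℍ) (h : ‖u‖ = 1) : star u * u = 1 := by
  rw [Quaternion.star_mul_self, Quaternion.normSq_eq_norm_mul_self, h]
  simp

/-- an element of the isotropy group of `(0, u)` -/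
noncomputable def qz (u : ℍ) (hu : ‖u‖ = 1) : GQ :=
  ⟨u * star (jC Complex.I) * star u, by
    rw [mem_sphere_zero_iff_norm, norm_mul, norm_mul, norm_star, norm_star, norm_jC, hu,
      Complex.norm_I]
    norm_num⟩

theorem qz_mem (x : M7) (hx : cc x 0 = 0) :
    ((zI, qz (cc x 1) (norm_c1 x hx)) : GG) ∈ MulAction.stabilizer GG x := by
  rw [mem_stab]
  refine ⟨by rw [hx, mul_zero], ?_⟩
  change (cc x 1 * star (jC Complex.I) * star (cc x 1)) * cc x 1 * jC Complex.I = cc x 1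
  rw [mul_assoc _ (star (cc x 1)), star_mul_self1 _ (norm_c1 x hx), mul_one, mul_assoc,
    star_mul_self1 _ (by rw [norm_jC, Complex.norm_I]), mul_one]

theorem qz_ne_one (u : ℍ) (hu : ‖u‖ = 1) : qz u hu ≠ 1 := by
  intro h
  have h1 : u * star (jC Complex.I) * star u = 1 := congrArg Subtype.val h
  have h2 : u * star (jC Complex.I) = u := by
    have := congrArg (· * u) h1
    simp only [mul_assoc, star_mul_self1 u hu, mul_one, one_mul] at this
    exact this
  have hu0 : u ≠ 0 := fun h0 => by rw [h0, norm_zero] at hu; exact zero_ne_one hu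
  have h3 : u * (star (jC Complex.I) - 1) = 0 := by rw [mul_sub, h2, mul_one, sub_self]
  rcases mul_eq_zero.1 h3 with h4 | h4
  · exact hu0 h4
  · apply jI_ne
    have h5 := congrArg star (sub_eq_zero.1 h4)
    rw [star_star, star_one] at h5
    exact h5

theorem not_reg2 (x : M7) (hx : ¬ Reg2 x) : cc x 0 = 0 ∨ cc x 1 = 0 := by
  by_contra h
  push Not at h
  exact hx h

theorem stab_sing2 (x : M7) (hx : ¬ Reg2 x) : MulAction.stabilizer GG x ≠ ⊥ := by
  intro h
  rcases not_reg2 x hx with h0 | h1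
  · have h2 := qz_mem x h0
    rw [h, Subgroup.mem_bot] at h2
    exact qz_ne_one _ (norm_c1 x h0) (congrArg Prod.snd h2)
  · have h2 := zI_mem x h1
    rw [h, Subgroup.mem_bot] at h2
    have h3 : (Complex.I : ℂ) = 1 := congrArg (fun a : GG => (a.1 : ℂ)) h2
    have h4 := congrArg Complex.im h3
    simp at h4

/-- the point `(1, 0)` -/
noncomputable def p1 : M7 := ⟨WithLp.toLp 2 (Pi.single 0 (1 : ℍ)), by
  rw [mem_sphere_zero_iff_norm, ← pow_eq_one_iff_of_nonneg (norm_nonneg _) two_ne_zero, normsq_W]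
  simp⟩

/-- the point `(0, 1)` -/
noncomputable def p2 : M7 := ⟨WithLp.toLp 2 (Pi.single 1 (1 : ℍ)), by
  rw [mem_sphere_zero_iff_norm, ← pow_eq_one_iff_of_nonneg (norm_nonneg _) two_ne_zero, normsq_W]
  simp⟩

theorem p1_0 : cc p1 0 = 1 := by simp [cc, p1]
theorem p1_1 : cc p1 1 = 0 := by simp [cc, p1]
theorem p2_0 : cc p2 0 = 0 := by simp [cc, p2]
theorem p2_1 : cc p2 1 = 1 := by simp [cc, p2]

theorem orbit_p1 (x : M7) : x ∈ MulAction.orbit GG p1 ↔ cc x 1 = 0 := by
  constructor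
  · rintro ⟨a, rfl⟩
    exact (z1_smul a p1).2 p1_1
  · intro hx
    refine ⟨(1, ⟨cc x 0, by rw [mem_sphere_zero_iff_norm]; exact norm_c0 x hx⟩), ?_⟩
    refine ext_cc ?_ ?_
    · change cc ((((1 : GC), (⟨cc x 0, _⟩ : GQ)) : GG) • p1) 0 = _
      rw [cc_smul_zero, p1_0, mul_one]
    · change cc ((((1 : GC), (⟨cc x 0, _⟩ : GQ)) : GG) • p1) 1 = _
      rw [cc_smul_one, p1_1, mul_zero, zero_mul, hx]

theorem orbit_p2 (x : M7) : x ∈ MulAction.orbit GG p2 ↔ cc x 0 = 0 := by
  constructor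
  · rintro ⟨a, rfl⟩
    exact (z0_smul a p2).2 p2_0
  · intro hx
    refine ⟨(1, ⟨cc x 1, by rw [mem_sphere_zero_iff_norm]; exact norm_c1 x hx⟩), ?_⟩
    refine ext_cc ?_ ?_
    · change cc ((((1 : GC), (⟨cc x 1, _⟩ : GQ)) : GG) • p2) 0 = _
      rw [cc_smul_zero, p2_0, mul_zero, hx]
    · change cc ((((1 : GC), (⟨cc x 1, _⟩ : GQ)) : GG) • p2) 1 = _
      have h3 : ((1 : GC) : ℂ) = 1 := rfl
      rw [cc_smul_one, p2_1, mul_one]
      change cc x 1 * jC ((1 : GC) : ℂ) = _
      rw [h3, jC_one, mul_one]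

theorem not_conj : ¬ ∃ a : GG, MulAction.stabilizer GG p2 = MulAction.stabilizer GG (a • p1) := by
  rintro ⟨a, ha⟩
  have h1 := qz_mem p2 p2_0
  rw [ha, mem_stab] at h1
  have h2 : cc (a • p1) 0 ≠ 0 := by
    rw [Ne, z0_smul, p1_0]
    exact one_ne_zero
  exact qz_ne_one _ (norm_c1 p2 p2_0) (snd_eq_one _ _ h2 h1.1)

/-! ### topology -/

theorem cont_cc (i : Fin 2) : Continuous (fun x : M7 => cc x i) :=
  (cw i).continuous.comp continuous_subtype_val

theorem isOpen_reg2 : IsOpen {x : M7 | Reg2 x} :=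
  (isOpen_ne.preimage (cont_cc 0)).inter (isOpen_ne.preimage (cont_cc 1))

theorem gc_tendsto (x : M7) (e : W) (he : ‖e‖ = 1) (h : ⟪(x : W), e⟫ = 0) :
    Filter.Tendsto (gc (x : W) e (norm_eq_of_mem_sphere x) he h 1) (𝓝[>] 0) (𝓝 x) := by
  have h3 := (gc_smooth (n := 7) (x : W) e (norm_eq_of_mem_sphere x) he h 1).continuous.tendsto 0
  have h4 : gc (x : W) e (norm_eq_of_mem_sphere x) he h 1 0 = x := by
    refine Subtype.ext ?_
    change Real.cos (1 * 0) • (x : W) + Real.sin (1 * 0) • e = x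
    simp
  rw [h4] at h3
  exact h3.mono_left nhdsWithin_le_nhds

theorem cc_gc (x : M7) (e : W) (he : ‖e‖ = 1) (h : ⟪(x : W), e⟫ = 0) (t : ℝ) (i : Fin 2) :
    cc (gc (x : W) e (norm_eq_of_mem_sphere x) he h 1 t) i =
      Real.cos t • cc x i + Real.sin t • e i := by
  change (Real.cos (1 * t) • (x : W) + Real.sin (1 * t) • e) i = _
  rw [one_mul]
  rfl

theorem dense_reg2 : Dense {x : M7 | Reg2 x} := by
  intro x
  by_cases hx : Reg2 x
  · exact subset_closure hx
  · have h2 : Set.Ioo (0 : ℝ) (Real.pi / 2) ∈ 𝓝[>] (0 : ℝ) :=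
      Ioo_mem_nhdsGT (by positivity)
    rcases not_reg2 x hx with h0 | h1
    · have hi : ⟪(x : W), (p1 : W)⟫ = 0 := by
        rw [PiLp.inner_apply, Fin.sum_univ_two]
        have e0 : (x : W) 0 = 0 := h0
        have e1 : (p1 : W) 1 = 0 := p1_1
        rw [e0, e1, inner_zero_left, inner_zero_right, add_zero]
      refine mem_closure_of_tendsto (gc_tendsto x p1 (norm_eq_of_mem_sphere p1) hi) ?_
      filter_upwards [h2] with t ht
      have hs : Real.sin t ≠ 0 := (Real.sin_pos_of_pos_of_lt_pi ht.1 (by linarith [ht.2, Real.pi_pos])).ne'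
      have hc : Real.cos t ≠ 0 := (Real.cos_pos_of_mem_Ioo ⟨by linarith [ht.1, Real.pi_pos], ht.2⟩).ne'
      have hn : cc x 1 ≠ 0 := by
        intro h
        have := norm_c1 x h0
        rw [h, norm_zero] at this
        exact zero_ne_one this
      refine ⟨?_, ?_⟩
      · rw [cc_gc, h0, smul_zero, zero_add]
        exact smul_ne_zero hs (by change cc p1 0 ≠ 0; rw [p1_0]; exact one_ne_zero)
      · rw [cc_gc]
        have e1 : (p1 : W) 1 = 0 := p1_1
        rw [e1, smul_zero, add_zero]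
        exact smul_ne_zero hc hn
    · have hi : ⟪(x : W), (p2 : W)⟫ = 0 := by
        rw [PiLp.inner_apply, Fin.sum_univ_two]
        have e0 : (x : W) 1 = 0 := h1
        have e1 : (p2 : W) 0 = 0 := p2_0
        rw [e0, e1, inner_zero_left, inner_zero_right, add_zero]
      refine mem_closure_of_tendsto (gc_tendsto x p2 (norm_eq_of_mem_sphere p2) hi) ?_
      filter_upwards [h2] with t ht
      have hs : Real.sin t ≠ 0 := (Real.sin_pos_of_pos_of_lt_pi ht.1 (by linarith [ht.2, Real.pi_pos])).ne'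
      have hc : Real.cos t ≠ 0 := (Real.cos_pos_of_mem_Ioo ⟨by linarith [ht.1, Real.pi_pos], ht.2⟩).ne'
      have hn : cc x 0 ≠ 0 := by
        intro h
        have := norm_c0 x h1
        rw [h, norm_zero] at this
        exact zero_ne_one this
      refine ⟨?_, ?_⟩
      · rw [cc_gc]
        have e1 : (p2 : W) 0 = 0 := p2_0
        rw [e1, smul_zero, add_zero]
        exact smul_ne_zero hc hn
      · rw [cc_gc, h1, smul_zero, zero_add]
        exact smul_ne_zero hs (by change cc p2 1 ≠ 0; rw [p2_1]; exact one_ne_zero)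

theorem exists_reg2 : ∃ x : M7, Reg2 x := by
  obtain ⟨z, hz⟩ := dense_reg2.nonempty (h := ⟨p1⟩)
  exact ⟨z, hz⟩

/-! ### principal and singular orbits -/

theorem sameType_sub2 (x : M7) (hx : ¬ Reg2 x) : sameType GG x ⊆ {y | ¬ Reg2 y} := by
  rintro y ⟨a, ha⟩ hy
  rw [stab_reg2 y hy] at ha
  exact stab_sing2 (a • x) (fun h2 => hx ((reg2_smul a x).1 h2)) ha.symm

theorem sameType_reg2 (x : M7) (hx : Reg2 x) : sameType GG x = {y | Reg2 y} := by
  ext y
  constructor
  · rintro ⟨a, ha⟩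
    by_contra hy
    rw [stab_reg2 (a • x) ((reg2_smul a x).2 hx)] at ha
    exact stab_sing2 y hy ha
  · intro hy
    refine ⟨1, ?_⟩
    rw [stab_reg2 y hy, stab_reg2 _ ((reg2_smul 1 x).2 hx)]

theorem principal_iff2 (x : M7) : Pool.Agent.Q142.Coh.IsPrincipal GG x ↔ Reg2 x := by
  constructor
  · intro h
    by_contra hx
    obtain ⟨z, hz1, hz2⟩ := h.2.inter_open_nonempty _ isOpen_reg2 exists_reg2
    exact sameType_sub2 x hx hz2 hz1
  · intro hx
    unfold Pool.Agent.Q142.Coh.IsPrincipal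
    rw [sameType_reg2 x hx]
    exact ⟨isOpen_reg2, dense_reg2⟩

theorem orbDim_not_reg (x : M7) (hx : ¬ Reg2 x) : orbDim I4 7 GG x < 4 := by
  rcases not_reg2 x hx with h | h
  · exact orbDim_sing0 x h
  · exact orbDim_sing1 x h

theorem singular_iff2 (x : M7) : IsSing I4 7 GG x ↔ ¬ Reg2 x := by
  constructor
  · rintro ⟨p, hp, h⟩ hx
    rw [orbDim_reg x hx, orbDim_reg p ((principal_iff2 p).1 hp)] at h
    exact lt_irrefl _ h
  · intro hx
    obtain ⟨p, hp⟩ := exists_reg2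
    refine ⟨p, (principal_iff2 _).2 hp, ?_⟩
    rw [orbDim_reg p hp]
    exact orbDim_not_reg x hx

theorem connM7 : ConnectedSpace M7 := by
  refine isConnected_iff_connectedSpace.1 (isConnected_sphere ?_ (0 : W) zero_le_one)
  rw [← finrank_eq_rank, finrank_W]
  norm_num

theorem connGQ : ConnectedSpace GQ := by
  refine isConnected_iff_connectedSpace.1 (isConnected_sphere ?_ (0 : ℍ) zero_le_one)
  rw [← finrank_eq_rank, Quaternion.finrank_eq_four]
  norm_num

theorem connGC : ConnectedSpace GC := by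
  refine isConnected_iff_connectedSpace.1 (isConnected_sphere ?_ (0 : ℂ) zero_le_one)
  rw [← finrank_eq_rank, Complex.finrank_real_complex]
  norm_num

theorem faithful2 : FaithfulSMul GG M7 := by
  refine ⟨fun {a b} h => ?_⟩
  obtain ⟨p, hp⟩ := exists_reg2
  have h1 : b⁻¹ * a ∈ MulAction.stabilizer GG p := by
    rw [MulAction.mem_stabilizer_iff, mul_smul, h p, inv_smul_smul]
  rw [stab_reg2 p hp, Subgroup.mem_bot] at h1
  exact (inv_mul_eq_one.1 h1).symm

theorem two_different : TwoDifferentSingular I4 7 GG M7 3 := by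
  have c1 := connGC
  have c2 := connGQ
  refine ⟨⟨inferInstance, inferInstance, inferInstance, inferInstance, inferInstance,
      inferInstance⟩, ⟨inferInstance, inferInstance, connM7, inferInstance⟩, smooth_action2, faithful2, ?_, ?_,
    ⟨p1, p2, fun x => ?_, not_conj⟩⟩
  · refine Set.Finite.subset (Set.toFinite {MulAction.orbit GG p1, MulAction.orbit GG p2}) ?_
    rintro O ⟨x, hx, rfl⟩
    rw [principal_iff2] at hx
    rcases not_reg2 x hx with h | h
    · right
      rw [Set.mem_singleton_iff, MulAction.orbit_eq_iff]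
      exact (orbit_p2 x).2 h
    · left
      rw [MulAction.orbit_eq_iff]
      exact (orbit_p1 x).2 h
  · obtain ⟨p, hp⟩ := exists_reg2
    exact ⟨p, (principal_iff2 p).2 hp, by rw [orbDim_reg p hp]⟩
  · rw [singular_iff2, orbit_p1, orbit_p2]
    unfold Reg2
    tauto

theorem invariant2 (c : ℝ) (hc : 0 < c) : Invariant GG (smet W 7 c hc) := by
  intro a x v w
  have h1 := dinc_comp (n := 7) (f := fun z : M7 => a • z)
    (F := (actL a).toContinuousLinearMap) (fun z => rfl) x (mdiff_smul2 a x)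
  have h2 := h1 v
  have h3 := h1 w
  change c * inner ℝ
    (dinc (a • x) (mfderiv (𝓡 7) (𝓡 7) (fun z : M7 => a • z) x v))
    (dinc (a • x) (mfderiv (𝓡 7) (𝓡 7) (fun z : M7 => a • z) x w)) =
    c * inner ℝ (dinc x v) (dinc x w)
  rw [h2, h3]
  congr 1
  exact (actL a).inner_map_map _ _

end Pool.Agent.Q142.Two
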